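import Mathlib

set_option autoImplicit false
open Finset
open scoped Nat

namespace Pool.Agent.Results.MP_cab928_co.Local

/-- The real binomial coefficient. -/
noncomputable def bin (x : ℝ) (k : ℕ) : ℝ := (∏ j ∈ range k, (x - j)) / k !

variable {V : Type} [Fintype V] [DecidableEq V]

/-- The number of edges containing `I`. -/
def deg (H : Finset (Finset V)) (I : Finset V) : ℕ := #(H.filter (I ⊆ ·))

/-- The `t`-sets all of whose `q`-subsets are edges. -/
def cliques (H : Finset (Finset V)) (q t : ℕ) : Finset (Finset V) :=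
  (univ.powersetCard t).filter fun T => T.powersetCard q ⊆ H

theorem mem {H : Finset (Finset V)} {q t : ℕ} {T : Finset V} :
    T ∈ cliques H q t ↔ #T = t ∧ ∀ e ⊆ T, #e = q → e ∈ H := by
  simp [cliques, subset_iff, mem_powersetCard]

theorem bin_succ (x : ℝ) (k : ℕ) : (k + 1) * bin x (k + 1) = (x - k) * bin x k := by
  simp only [bin, prod_range_succ, Nat.factorial_succ]; push_cast; field_simp

theorem bin_succ' (x : ℝ) (k : ℕ) : (k + 1) * bin x (k + 1) = x * bin (x - 1) k := by
  simp only [bin, prod_range_succ', Nat.factorial_succ]; push_cast; field_simp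
  simp only [sub_zero, sub_sub, add_comm, mul_comm]

theorem bin_pos {x : ℝ} {k : ℕ} (h : (k : ℝ) - 1 < x) : 0 < bin x k :=
  div_pos (prod_pos fun j hj => by
    have : (j : ℝ) + 1 ≤ k := by exact_mod_cast mem_range.mp hj
    linarith) (by positivity)

theorem bin_mono {x y : ℝ} {k : ℕ} (h : (k : ℝ) - 1 ≤ x) (xy : x ≤ y) : bin x k ≤ bin y k :=
  div_le_div_of_nonneg_right (prod_le_prod (fun j hj => by
    have : (j : ℝ) + 1 ≤ k := by exact_mod_cast mem_range.mp hj
    linarith) fun _ _ => by linarith) (by positivity)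

theorem bin_lt {x y : ℝ} {k : ℕ} (h : (k : ℝ) ≤ x) (xy : x < y) : bin x (k + 1) < bin y (k + 1) := by
  have a := bin_succ x k
  have b := bin_succ y k
  have c := bin_mono (k := k) (by linarith) xy.le
  have d := bin_pos (k := k) (x := x) (by linarith)
  refine lt_of_mul_lt_mul_left ?_ (show (0 : ℝ) ≤ k + 1 by positivity)
  nlinarith

theorem bin_nat (n k : ℕ) : bin n k = n.choose k := by
  induction k with
  | zero => simp [bin]
  | succ k ih =>
    refine mul_left_cancel₀ (show (k : ℝ) + 1 ≠ 0 by positivity) ?_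
    rw [bin_succ, ih]
    rcases le_or_gt k n with h | h
    · have := congrArg (Nat.cast : ℕ → ℝ) (Nat.choose_succ_right_eq n k)
      push_cast [h] at this; linarith
    · simp [Nat.choose_eq_zero_of_lt h, Nat.choose_eq_zero_of_lt (Nat.lt_succ_of_lt h)]

def link (H : Finset (Finset V)) (I : Finset V) : Finset (Finset V) := (H.filter (I ⊆ ·)).image (· \ I)

theorem inj (H : Finset (Finset V)) (I : Finset V) : Set.InjOn (· \ I) (H.filter (I ⊆ ·) : Set _) :=
  fun _ a _ b h => by
    rw [← sdiff_union_of_subset (mem_filter.mp a).2, ← sdiff_union_of_subset (mem_filter.mp b).2]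
    exact congrArg (· ∪ I) h

theorem link_sized {H : Finset (Finset V)} {I : Finset V} {r : ℕ} (h : ∀ e ∈ H, #e = r + #I) :
    ∀ e ∈ link H I, #e = r := fun e he => by
  obtain ⟨f, hf, rfl⟩ := mem_image.mp he
  rw [card_sdiff_of_subset (mem_filter.mp hf).2, h f (mem_filter.mp hf).1, Nat.add_sub_cancel]

theorem link_cl (H : Finset (Finset V)) (I : Finset V) (r s : ℕ) :
    deg (cliques H (r + #I) (s + #I)) I ≤ #(cliques (link H I) r s) := by
  refine card_le_card_of_injOn _ (fun T hT => ?_) (inj _ I)
  obtain ⟨a, b⟩ := mem_filter.mp hT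
  rw [mem] at a
  refine mem.mpr ⟨by rw [card_sdiff_of_subset b, a.1, Nat.add_sub_cancel], fun e he c => ?_⟩
  have d := (subset_sdiff.mp he).2
  exact mem_image.mpr ⟨e ∪ I, mem_filter.mpr ⟨a.2 _ (union_subset (subset_sdiff.mp he).1 b)
    (by rw [card_union_of_disjoint d, c]), subset_union_right⟩, union_sdiff_cancel_right d⟩

theorem dsum (H : Finset (Finset V)) (i : ℕ) (f : Finset V → ℝ) :
    ∑ I ∈ univ.powersetCard i, deg H I * f I = ∑ e ∈ H, ∑ I ∈ e.powersetCard i, f I := by
  simp only [deg, card_filter, Nat.cast_sum, sum_mul]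
  rw [sum_comm]
  refine sum_congr rfl fun e _ => ?_
  rw [show e.powersetCard i = (univ.powersetCard i).filter (· ⊆ e) by ext; simp [and_comm], sum_filter]
  simp

theorem dsum1 (H : Finset (Finset V)) (q : ℕ) (h : ∀ e ∈ H, #e = q) :
    ∑ v, (deg H {v} : ℝ) = q * #H := by
  have := dsum H 1 fun _ => 1
  rw [powersetCard_one, sum_map] at this
  simp only [mul_one, sum_const, card_powersetCard, Nat.choose_one_right, nsmul_eq_mul] at this
  rw [sum_congr rfl fun e he => congrArg _ (h e he), sum_const, nsmul_eq_mul, mul_comm] at this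
  exact this

theorem step (r : ℕ) : ∀ (H : Finset (Finset V)) (x : ℝ), (∀ e ∈ H, #e = r + 1) → (r + 1 : ℝ) ≤ x →
    #H ≤ bin x (r + 1) → (r + 2 : ℝ) * #(cliques H (r + 1) (r + 2)) ≤ (x - (r + 1)) * #H := by
  have a : ∀ (r : ℕ) (H : Finset (Finset V)) (v : V),
      deg (cliques H r (r + 1)) {v} + deg H {v} ≤ #H := fun r H v => by
    rw [← card_filter_add_card_filter_not (s := H) ({v} ⊆ ·), add_comm]
    refine Nat.add_le_add_left (card_le_card_of_injOn _ (fun T hT => ?_) (inj _ {v})) _
    obtain ⟨a, b⟩ := mem_filter.mp hT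
    rw [mem] at a
    exact mem_filter.mpr ⟨a.2 _ sdiff_subset (by simp [card_sdiff_of_subset b, a.1]), by simp⟩
  have b : ∀ (r : ℕ) (H : Finset (Finset V)) (x : ℝ), (∀ e ∈ H, #e = r + 1) →
      (∀ v, (r + 1 : ℝ) * deg (cliques H (r + 1) (r + 2)) {v} ≤ (x - (r + 1)) * deg H {v}) →
      (r + 2 : ℝ) * #(cliques H (r + 1) (r + 2)) ≤ (x - (r + 1)) * #H := fun r H x h k => by
    have := sum_le_sum fun v (_ : v ∈ univ) => k v
    rw [← mul_sum, ← mul_sum, dsum1 _ _ h, dsum1 _ _ fun e he => (mem.mp he).1] at this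
    push_cast at this
    exact le_of_mul_le_mul_left (by linarith) (show (0 : ℝ) < r + 1 by positivity)
  have c : ∀ (r : ℕ) (H : Finset (Finset V)) (x : ℝ) (v : V), (r + 1 : ℝ) ≤ x → #H ≤ bin x (r + 1) →
      bin (x - 1) r ≤ deg H {v} →
      (r + 1 : ℝ) * deg (cliques H (r + 1) (r + 2)) {v} ≤ (x - (r + 1)) * deg H {v} :=
    fun r H x v h1 h2 h3 => by
      have := (Nat.cast_le (α := ℝ)).mpr (a (r + 1) H v)
      push_cast at this
      have p : (0 : ℝ) ≤ r := by positivity
      nlinarith [bin_succ' x r]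
  induction r with
  | zero =>
    refine fun H x h h1 h2 => b 0 H x h fun v => ?_
    rcases (deg H {v}).eq_zero_or_pos with z | z
    · have := link_cl H {v} 0 1
      rw [show link H {v} = ∅ from card_eq_zero.mp ((card_image_of_injOn (inj H _)).trans z),
        show cliques (∅ : Finset (Finset V)) 0 1 = ∅ by simp [cliques]] at this
      simp only [card_singleton, card_empty, nonpos_iff_eq_zero] at this
      simp [z, this]
    · exact c 0 H x v h1 h2 (by simpa [bin] using Nat.succ_le_of_lt z)
  | succ r ih =>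
    refine fun H x h h1 h2 => b _ H x h fun v => ?_
    rcases le_total (bin (x - 1) (r + 1)) (deg H {v}) with z | z
    · exact c _ H x v h1 h2 z
    · have e : #(link H {v}) = deg H {v} := card_image_of_injOn (inj H _)
      push_cast at h1 ⊢
      have := ih (link H {v}) (x - 1) (link_sized h) (by linarith) (e ▸ z)
      have k := (Nat.cast_le (α := ℝ)).mpr (link_cl H {v} (r + 1) (r + 2))
      rw [e] at this
      simp only [card_singleton] at k
      have p : (0 : ℝ) ≤ r := by positivity
      nlinarith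

theorem iter (H : Finset (Finset V)) (r : ℕ) (x : ℝ) (h : ∀ e ∈ H, #e = r + 1)
    (m : #H = bin x (r + 1)) (k : ℕ) (hk : (r + 1 + k : ℝ) ≤ x) :
    #(cliques H (r + 1) (r + 1 + k)) ≤ bin x (r + 1 + k) := by
  induction k with
  | zero =>
    rw [add_zero, ← m]
    exact Nat.cast_le.mpr (card_le_card fun T hT => (mem.mp hT).2 T Subset.rfl (mem.mp hT).1)
  | succ k ih =>
    push_cast at hk
    have i := ih (by linarith)
    rw [add_right_comm] at i
    have := step (r + k) _ x (fun e he => (mem.mp he).1) (by push_cast; linarith) i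
    have s : cliques H (r + 1) (r + 1 + (k + 1)) ⊆
        cliques (cliques H (r + 1) (r + k + 1)) (r + k + 1) (r + k + 2) := fun T hT =>
      mem.mpr ⟨by rw [(mem.mp hT).1]; ring, fun e he c => mem.mpr ⟨c, fun f hf =>
        (mem.mp hT).2 f (hf.trans he)⟩⟩
    have s := (Nat.cast_le (α := ℝ)).mpr (card_le_card s)
    have b := bin_succ x (r + k + 1)
    rw [show r + 1 + (k + 1) = r + k + 1 + 1 by ring] at s ⊢
    push_cast at this b
    have p : (0 : ℝ) < r + k + 2 := by positivity
    refine le_of_mul_le_mul_left ?_ p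
    nlinarith

theorem bin_mul (x : ℝ) (q k : ℕ) : bin x (q + k) * (q + k).choose q = bin x q * bin (x - q) k := by
  rw [Nat.cast_choose ℝ (Nat.le_add_right q k), Nat.add_sub_cancel_left]
  simp only [bin, prod_range_add, Nat.cast_add, sub_sub]
  field_simp

theorem result (t q i : ℕ) (_hi : 1 ≤ i) (hq : i < q) (ht : q ≤ t) (H : Finset (Finset V))
    (hH : ∀ e ∈ H, #e = q) (x : Finset V → ℝ)
    (hx : ∀ I, #I = i → (q : ℝ) - 1 ≤ x I ∧ (deg H I : ℝ) = bin (x I - i) (q - i)) :
    ∑ T ∈ cliques H q t, 1 / bin (sSup (x '' {I | I ⊆ T ∧ #I = i}) - q) (t - q) ≤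
      #H / (t.choose q : ℝ) := by
  obtain ⟨r, rfl⟩ : ∃ r, q = r + 1 + i := ⟨q - i - 1, by omega⟩
  obtain ⟨k, rfl⟩ : ∃ k, t = r + 1 + i + k := ⟨t - (r + 1 + i), by omega⟩
  simp only [Nat.add_sub_cancel, Nat.add_sub_cancel_left] at hx ⊢
  have big : ∀ T ∈ cliques H (r + 1 + i) (r + 1 + i + k), ∀ I ⊆ T, #I = i →
      (r + 1 + i + k : ℝ) ≤ x I := fun T hT I h1 h2 => by
    by_contra! c
    have a := bin_lt (k := r) (x := x I - i) (y := (r + 1 + k : ℕ))
      (by have := (hx I h2).1; push_cast at this; linarith) (by push_cast; linarith)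
    rw [← (hx I h2).2, bin_nat, Nat.cast_lt, show r + 1 + k = #(T \ I) by
      rw [card_sdiff_of_subset h1, (mem.mp hT).1]; omega, ← card_powersetCard] at a
    refine a.not_ge (card_le_card_of_injOn (· ∪ I) (fun e he => ?_) fun e he f hf h => ?_)
    · obtain ⟨a, b⟩ := mem_powersetCard.mp he
      exact mem_filter.mpr ⟨(mem.mp hT).2 _ (union_subset (subset_sdiff.mp a).1 h1) (by
        rw [card_union_of_disjoint (subset_sdiff.mp a).2, b, h2]), subset_union_right⟩
    · rw [← union_sdiff_cancel_right (subset_sdiff.mp (mem_powersetCard.mp he).1).2,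
        ← union_sdiff_cancel_right (subset_sdiff.mp (mem_powersetCard.mp hf).1).2]
      exact congrArg (· \ I) h
  have c1 : (0 : ℝ) < (r + 1 + i + k).choose i := by exact_mod_cast Nat.choose_pos (by omega)
  have c2 : (0 : ℝ) < (r + 1 + k).choose (r + 1) := by exact_mod_cast Nat.choose_pos (by omega)
  have c3 : (0 : ℝ) < (r + 1 + i + k).choose (r + 1 + i) := by
    exact_mod_cast Nat.choose_pos (by omega)
  refine le_of_mul_le_mul_left ?_ c1
  calc _ ≤ ∑ T ∈ cliques H (r + 1 + i) (r + 1 + i + k), ∑ I ∈ T.powersetCard i,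
        1 / bin (x I - (r + 1 + i : ℕ)) k := by
        rw [mul_sum]
        refine sum_le_sum fun T hT => ?_
        rw [← (mem.mp hT).1, ← card_powersetCard, ← nsmul_eq_mul]
        refine card_nsmul_le_sum _ _ _ fun I hI => ?_
        rw [mem_powersetCard] at hI
        have := big T hT I hI.1 hI.2
        refine one_div_le_one_div_of_le (bin_pos (by push_cast; linarith))
          (bin_mono (by push_cast; linarith) (sub_le_sub_right (le_csSup
            ((Set.toFinite _).image _).bddAbove ⟨I, hI, rfl⟩) _))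
    _ ≤ ∑ I ∈ univ.powersetCard i, deg H I * (1 / (r + 1 + k).choose (r + 1) : ℝ) := by
        rw [← dsum]
        refine sum_le_sum fun I hI => ?_
        have hI := (mem_powersetCard.mp hI).2
        rcases (deg (cliques H (r + 1 + i) (r + 1 + i + k)) I).eq_zero_or_pos with z | z
        · rw [z, Nat.cast_zero, zero_mul]; positivity
        obtain ⟨T, hT⟩ := card_pos.mp z
        have := big T (mem_filter.mp hT).1 I (mem_filter.mp hT).2 hI
        have a := iter (link H I) r (x I - i) (link_sized (hI ▸ hH))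
          ((congrArg _ (card_image_of_injOn (inj H I))).trans (hx I hI).2) k (by linarith)
        have b := (Nat.cast_le (α := ℝ)).mpr (link_cl H I (r + 1) (r + 1 + k))
        have c := bin_mul (x I - i) (r + 1) k
        rw [hI, add_right_comm (r + 1) k] at b
        rw [← (hx I hI).2, sub_sub, ← Nat.cast_add, add_comm i] at c
        rw [mul_one_div, mul_one_div, div_le_div_iff₀ (bin_pos (by push_cast; linarith)) c2, ← c]
        exact mul_le_mul_of_nonneg_right (b.trans a) c2.le
    _ = _ := by
        rw [dsum, sum_congr rfl (g := fun _ => (r + 1 + i).choose i *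
          (1 / (r + 1 + k).choose (r + 1) : ℝ)) fun e he => by simp [hH e he], sum_const]
        have := congrArg (Nat.cast : ℕ → ℝ) (Nat.choose_mul (n := r + 1 + i + k) (k := r + 1 + i)
          (s := i) (by omega))
        rw [show r + 1 + i + k - i = r + 1 + k by omega, Nat.add_sub_cancel] at this
        push_cast at this
        field_simp
        rw [nsmul_eq_mul]
        field_simp
        linear_combination #H * this

end Pool.Agent.Results.MP_cab928_co.Local
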